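import Pool.Agent.H36.BL.Top

set_option autoImplicit false

open Set Filter Topology

/-!
# Blid maps in separable Banach spaces; the answer for the spheres of `C[0,1]`
-/

namespace Pool.Agent.Results.MP_a52dbe_an.SphereDichotomy

/-- The real Banach space `C[0,1]` of continuous real functions on `[0,1]`, with the sup norm. -/
abbrev CX : Type := C(Set.Icc (0:ℝ) 1, ℝ)

section defs

variable {X : Type*} [NormedAddCommGroup X] [NormedSpace ℝ X]

/-- The range of `H` lies in `U`, and `H` is the identity on a neighbourhood `V ⊆ U` of `S`. -/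
def IdNear (S U : Set X) (H : X → X) : Prop :=
  (∀ x, H x ∈ U) ∧ ∃ V : Set X, V ∈ 𝓝ˢ S ∧ V ⊆ U ∧ ∀ x ∈ V, H x = x

/-- `H` is a `C^q` blid map at `S` for the neighbourhood `U` of `S` (`q = 0`: continuous). -/
def IsBlidMap (q : ℕ∞) (S U : Set X) (H : X → X) : Prop :=
  ContDiff ℝ q H ∧ IdNear S U H

/-- `S` admits `C^q` blid maps: for every neighbourhood `U` of `S` there is one. -/
def AdmitsBlidMaps (q : ℕ∞) (S : Set X) : Prop :=
  ∀ U ∈ 𝓝ˢ S, ∃ H : X → X, IsBlidMap q S U H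

/-- `S` admits blid maps that are Frechet differentiable at every point. -/
def AdmitsDifferentiableBlidMaps (S : Set X) : Prop :=
  ∀ U ∈ 𝓝ˢ S, ∃ H : X → X, Differentiable ℝ H ∧ IdNear S U H

/-- `S` admits Gateaux-`C^1` blid maps: continuous maps `H` that have at every point `x` a Gateaux
derivative `H' x`, a continuous linear map, such that `(x, h) ↦ H' x h` is continuous. -/
def AdmitsGateauxBlidMaps (S : Set X) : Prop :=
  ∀ U ∈ 𝓝ˢ S, ∃ H : X → X, (Continuous H ∧ ∃ H' : X → (X →L[ℝ] X),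
    (∀ x h : X, HasDerivAt (fun s : ℝ => H (x + s • h)) (H' x h) 0) ∧
    Continuous (fun p : X × X => H' p.1 p.2)) ∧ IdNear S U H

/-- `X` has a `C^q` bump: a `C^q` function `X → ℝ`, not identically zero, with bounded support. -/
def HasBump (X : Type*) [NormedAddCommGroup X] [NormedSpace ℝ X] (q : ℕ∞) : Prop :=
  ∃ b : X → ℝ, ContDiff ℝ q b ∧ (∃ x, b x ≠ 0) ∧ Bornology.IsBounded (Function.support b)

end defs

/-- Blid maps at closed sets in an arbitrary separable real Banach space, and the resulting answer for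
the spheres of `C[0,1]`. -/
theorem result :
    (∀ (X : Type) [NormedAddCommGroup X] [NormedSpace ℝ X] [CompleteSpace X]
      [TopologicalSpace.SeparableSpace X],
      (¬ FiniteDimensional ℝ X → ∀ r : ℝ, 0 < r →
        AdmitsBlidMaps 0 (Metric.sphere (0 : X) r)) ∧
      ∀ S : Set X, IsClosed S → AdmitsBlidMaps 0 S →
        AdmitsGateauxBlidMaps S ∧
        (∀ q : ℕ∞, HasBump X q → AdmitsBlidMaps q S) ∧
        ((∃ D : Set X, IsOpen D ∧ Bornology.IsBounded D ∧ frontier D ⊆ S ∧ ¬ D ⊆ S) →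
          (∀ q : ℕ∞, AdmitsBlidMaps q S ↔ HasBump X q) ∧
          (AdmitsBlidMaps 1 S ↔ TopologicalSpace.SeparableSpace (X →L[ℝ] ℝ)) ∧
          (AdmitsDifferentiableBlidMaps S ↔
            TopologicalSpace.SeparableSpace (X →L[ℝ] ℝ)))) ∧
    (∀ r : ℝ, 0 < r →
      AdmitsGateauxBlidMaps (Metric.sphere (0 : CX) r) ∧
      ¬ AdmitsDifferentiableBlidMaps (Metric.sphere (0 : CX) r) ∧
      ∀ q : ℕ∞, 1 ≤ q → ¬ AdmitsBlidMaps q (Metric.sphere (0 : CX) r)) := by
  have hgen : ∀ (X : Type) [NormedAddCommGroup X] [NormedSpace ℝ X] [CompleteSpace X]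
      [TopologicalSpace.SeparableSpace X],
      (¬ FiniteDimensional ℝ X → ∀ r : ℝ, 0 < r →
        AdmitsBlidMaps 0 (Metric.sphere (0 : X) r)) ∧
      ∀ S : Set X, IsClosed S → AdmitsBlidMaps 0 S →
        AdmitsGateauxBlidMaps S ∧
        (∀ q : ℕ∞, HasBump X q → AdmitsBlidMaps q S) ∧
        ((∃ D : Set X, IsOpen D ∧ Bornology.IsBounded D ∧ frontier D ⊆ S ∧ ¬ D ⊆ S) →
          (∀ q : ℕ∞, AdmitsBlidMaps q S ↔ HasBump X q) ∧
          (AdmitsBlidMaps 1 S ↔ TopologicalSpace.SeparableSpace (X →L[ℝ] ℝ)) ∧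
          (AdmitsDifferentiableBlidMaps S ↔
            TopologicalSpace.SeparableSpace (X →L[ℝ] ℝ))) := by
    intro X _ _ _ _
    refine ⟨fun hX r hr => H36.BL.sphere_admits_zero hX hr, fun S hSc hS0 => ⟨
      H36.BL.admitsGateaux hSc hS0, fun q hb => H36.BL.admits_of_hasBump hb hSc hS0, ?_⟩⟩
    rintro ⟨D, hD, hb, hfr, hDS⟩
    refine ⟨fun q => ⟨fun h => H36.BL.hasBump_of_encl hD hb hfr hDS h,
      fun h => H36.BL.admits_of_hasBump h hSc hS0⟩, ⟨fun h => ?_, fun h => ?_⟩,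
      ⟨fun h => ?_, fun h => ?_⟩⟩
    · exact H36.BL.bump_one_iff.mp (H36.BL.hasBump_of_encl hD hb hfr hDS h)
    · exact H36.BL.admits_of_hasBump (H36.BL.bump_one_iff.mpr h) hSc hS0
    · obtain ⟨b, hb1, hne, hbd⟩ := H36.BL.diffBump_of_encl hD hb hfr hDS h
      exact H36.BL.separable_dual_of_diff_bump hb1 hne hbd
    · exact H36.BL.admits_diff_of_one
        (H36.BL.admits_of_hasBump (H36.BL.bump_one_iff.mpr h) hSc hS0)
  refine ⟨hgen, fun r hr => ?_⟩
  have h0 : AdmitsBlidMaps 0 (Metric.sphere (0 : CX) r) :=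
    (hgen CX).1 H36.BL.not_finiteDimensional_C r hr
  have hS := (hgen CX).2 _ Metric.isClosed_sphere h0
  have hE := hS.2.2 ⟨Metric.ball 0 r, Metric.isOpen_ball, Metric.isBounded_ball,
    (H36.BL.sphere_encl hr).1, (H36.BL.sphere_encl hr).2⟩
  have hdiff : ¬ AdmitsDifferentiableBlidMaps (Metric.sphere (0 : CX) r) :=
    fun h => H36.BL.not_separable_dual_C (hE.2.2.mp h)
  refine ⟨hS.1, hdiff, fun q hq h => hdiff ?_⟩
  intro U hU
  obtain ⟨H, hH, h2⟩ := h U hU
  refine ⟨H, hH.differentiable ?_, h2⟩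
  intro h0
  simp at h0
  rw [h0] at hq
  exact absurd hq (by norm_num)

end Pool.Agent.Results.MP_a52dbe_an.SphereDichotomy
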